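import Pool.Agent.Y152.AS.Defs2

/-!
# Self-correspondences of a surface, their actions on the Albanese kernel, their polynomials and their
linear parts: definitions
-/

open CategoryTheory AlgebraicGeometry

universe u v w

namespace Pool.Agent.Helper867_NR

open Pool.Agent.H914 Pool.Agent.H914.VarClass Pool.Agent.H914.VarClass.Obj Pool.Agent.W492.BB
  Pool.Agent.W550.Corr Pool.Agent.TH133 Pool.Agent.Y152.AS

variable {k : Type u} [Field k] {𝒱 : VarClass k} (C : TheoryData.{u, v, 0} 𝒱 ℚ)

/-- The self-correspondences `Z` and `W` of the surface `X` act in the same way on the Albanese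
kernel `F^2 CH_0(X)_ℚ`. -/
def Same {X : 𝒱.Obj} (Z W : C.A (X.prod X)) : Prop :=
  ∀ α : C.A X, InAlbKer C α → C.act Z α = C.act W α

/-- The self-correspondences `Z` and `W` commute on the Albanese kernel. (`C.comp Z W` is the
composition of `Z` and `W` in this order.) -/
def Comm {X : 𝒱.Obj} (Z W : C.A (X.prod X)) : Prop := Same C (C.comp Z W) (C.comp W Z)

/-- The powers of the self-correspondence `Z`. -/
noncomputable def power {X : 𝒱.Obj} (Z : C.A (X.prod X)) : ℕ → C.A (X.prod X)
  | 0 => dg C X
  | n + 1 => C.comp (power Z n) Z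

/-- The self-correspondence `P(Z)` for a polynomial `P`. -/
noncomputable def poly {X : 𝒱.Obj} (P : Polynomial ℚ) (Z : C.A (X.prod X)) : C.A (X.prod X) :=
  P.sum fun n c => c • power C Z n

/-- The self-correspondence `Y ∈ CH^2(X × X)_ℚ` is linear: it commutes on the Albanese kernel with
all antisymmetric self-correspondences `W - ᵗW`. -/
def IsLinear {X : 𝒱.Obj} (Y : C.A (X.prod X)) : Prop :=
  C.Deg 2 Y ∧ ∀ W : C.A (X.prod X), C.Deg 2 W → Comm C Y (antisym C W)

variable {C}

/-- The open direction of the conjecture of Bloch for the self-correspondence `Γ`: if `Γ` is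
homologically equivalent to a degenerate correspondence (over `ℂ` this is equivalent to
`[Γ]^{2,0} = 0`), then `Γ` acts as zero on the Albanese kernel. -/
def Bloch {K : Type w} [Field K] (H : WeilTheoryData.{u, v, w} C K) {X : 𝒱.Obj}
    (Γ : C.A (X.prod X)) : Prop :=
  IsHomDegenerate H Γ → KillsAlbKer C Γ

/-- The difference of `Y` and `Y₀` is homologically equivalent to a degenerate correspondence. -/
def Near {K : Type w} [Field K] (H : WeilTheoryData.{u, v, w} C K) {X : 𝒱.Obj}
    (Y Y₀ : C.A (X.prod X)) : Prop := IsHomDegenerate H (Y - Y₀)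

/-- On the Albanese kernel `D Y₀ = (D Y + Y D) / 2`. -/
def IsMean {X : 𝒱.Obj} (D Y Y₀ : C.A (X.prod X)) : Prop :=
  Same C ((2 : ℚ) • C.comp Y₀ D) (C.comp Y D + C.comp D Y)

variable (C) in
/-- The linear self-correspondences are closed under sums, compositions and transposition, and they
commute with each other on the Albanese kernel; the sum of a linear correspondence and of its
transpose commutes on the Albanese kernel with all self-correspondences. -/
structure LinearAlgebra (X : 𝒱.Obj) : Prop where
  add : ∀ Y W : C.A (X.prod X), IsLinear C Y → IsLinear C W → IsLinear C (Y + W)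
  comp : ∀ Y W : C.A (X.prod X), IsLinear C Y → IsLinear C W → IsLinear C (C.comp Y W)
  transp : ∀ Y : C.A (X.prod X), IsLinear C Y → IsLinear C (tp C Y)
  comm : ∀ Y W : C.A (X.prod X), IsLinear C Y → IsLinear C W → Comm C Y W
  central : ∀ Y W : C.A (X.prod X), IsLinear C Y → C.Deg 2 W → Comm C (Y + tp C Y) W

/-- The linear self-correspondence `Y` is homologically equivalent to a degenerate correspondence and
acts as zero on the Albanese kernel, or it is invertible on the Albanese kernel, with a
linear inverse. -/
def ZeroOrInvertible {K : Type w} [Field K] (H : WeilTheoryData.{u, v, w} C K) {X : 𝒱.Obj}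
    (Y : C.A (X.prod X)) : Prop :=
  IsHomDegenerate H Y ∧ KillsAlbKer C Y ∨ ∃ V, IsLinear C V ∧ Same C (C.comp V Y) (dg C X)

end Pool.Agent.Helper867_NR
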