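import Pool.Agent.Helper867_NR.Alg
import Pool.Agent.Helper867_NR.Defs
import Pool.Agent.Y152.AS.Sq

/-!
# Correspondences which commute with a correspondence with a non-real eigenvalue
-/

open CategoryTheory AlgebraicGeometry

universe u v w

namespace Pool.Agent.Helper867_NR

open Pool.Agent.H914 Pool.Agent.H914.VarClass Pool.Agent.H914.VarClass.Obj Pool.Agent.W492.BB
  Pool.Agent.W550.Corr Pool.Agent.TH133 Pool.Agent.Y152.AS Pool.Agent.Y152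

set_option linter.unusedSectionVars false

variable {k : Type u} [Field k] {𝒱 : VarClass k} {C : TheoryData.{u, v, 0} 𝒱 ℚ}
  [hC : IsChowProj C] {K : Type w} [Field K] {H : WeilTheoryData.{u, v, w} C K}
  [hH : IsWeilProj H] {S : 𝒱.Obj}

lemma same_iff (hS : S.dim = 2) {Z W : C.A (S.prod S)} (hZ : Z ∈ C.gr (S.prod S) 2)
    (hW : W ∈ C.gr (S.prod S) 2) : Same C Z W ↔ (ph hS hZ).1 = (ph hS hW).1 := by
  constructor
  · intro h
    exact LinearMap.ext fun α => Subtype.ext (h α.1 (inAlbKer_iff.2 α.2))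
  · intro h α hα
    exact congrArg Subtype.val (LinearMap.congr_fun h ⟨α, inAlbKer_iff.1 hα⟩)

lemma kills_iff (hS : S.dim = 2) {Z : C.A (S.prod S)} (hZ : Z ∈ C.gr (S.prod S) 2) :
    KillsAlbKer C Z ↔ (ph hS hZ).1 = 0 := by
  constructor
  · intro h
    exact LinearMap.ext fun α => Subtype.ext (h α.1 (inAlbKer_iff.2 α.2))
  · intro h α hα
    exact congrArg Subtype.val (LinearMap.congr_fun h ⟨α, inAlbKer_iff.1 hα⟩)

lemma comm_iff (hS : S.dim = 2) {Z W : C.A (S.prod S)} (hZ : Z ∈ C.gr (S.prod S) 2)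
    (hW : W ∈ C.gr (S.prod S) 2) :
    Comm C Z W ↔ (ph hS hZ * ph hS hW).1 = (ph hS hW * ph hS hZ).1 := by
  rw [Comm, same_iff hS (comp_mem2 hS hS hZ hW) (comp_mem2 hS hS hW hZ), ph_comp, ph_comp]
  exact eq_comm

lemma IsDegenerate.smul {T : 𝒱.Obj} {W : C.A (S.prod T)} (h : IsDegenerate C W) (c : ℚ) :
    IsDegenerate C (c • W) := by
  induction h with
  | zero => rw [smul_zero]; exact IsDegenerate.zero
  | left Y Γ Δ hY h1 h2 =>
    rw [← AS.comp_smul_left]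
    exact IsDegenerate.left Y _ Δ hY (Submodule.smul_mem _ c h1) h2
  | right Y Γ Δ hY h1 h2 =>
    rw [← AS.comp_smul_left]
    exact IsDegenerate.right Y _ Δ hY (Submodule.smul_mem _ c h1) h2
  | add Z W _ _ h1 h2 => rw [smul_add]; exact IsDegenerate.add _ _ h1 h2

lemma isDegenerate_of_mem {T : 𝒱.Obj} {W : C.A (S.prod T)} (h : W ∈ degenerate C S T) :
    IsDegenerate C W := by
  induction h using Submodule.span_induction with
  | mem x hx =>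
    obtain ⟨Y, Γ, Δ, hY, ⟨h1, h2⟩ | ⟨h1, h2⟩, rfl⟩ := hx
    · exact IsDegenerate.left Y Γ Δ hY h1 h2
    · exact IsDegenerate.right Y Γ Δ hY h1 h2
  | zero => exact IsDegenerate.zero
  | add x y _ _ hx hy => exact IsDegenerate.add _ _ hx hy
  | smul c x _ hx => exact IsDegenerate.smul hx c

lemma isHomDegenerate_of {T : 𝒱.Obj} {W : C.A (S.prod T)} (h : HomDeg H W) :
    IsHomDegenerate H W := by
  obtain ⟨V, h1, h2⟩ := h
  exact ⟨V, isDegenerate_of_mem h1, h2⟩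

section alg

variable (hS : S.dim = 2) (h : Alg.Setup (P := PP C S) (swp C S) (QQ C hS) (JJ H hS))
include h

/-- An element of the ideal is determined by its first component. -/
lemma zero_of_fst {j : PP C S} (hj : j ∈ JJ H hS) (h1 : j.1 = 0) : j = 0 := by
  have h2 := h.sym hj
  refine Prod.ext h1 ?_
  have h3 := congrArg (fun x : PP C S => x.2) h2
  change MulOpposite.op j.1 = j.2 at h3
  rw [← h3, h1]
  rfl

variable {D : C.A (S.prod S)} (hD : D ∈ C.gr (S.prod S) 2) (h1 : swp C S (ph hS hD) = -ph hS hD)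
  (hE : EndIsField H S) (hnd : ¬ IsHomDegenerate H D)
include hD h1 hE hnd

lemma exists_inv' : ∃ v ∈ QQ C hS, ph hS hD * v = 1 ∧ v * ph hS hD = 1 := by
  obtain ⟨V, hV, hVd⟩ := (hE.inv D hD).resolve_left hnd
  have hV' : V ∈ C.gr (S.prod S) 2 := hV
  have h2 : ph hS hD * ph hS hV' - 1 ∈ JJ H hS := by
    refine ⟨_, Submodule.sub_mem _ (comp_mem2 hS hS hV' hD) (dg_mem2 hS), hVd.homDeg, ?_⟩
    rw [ph_sub hS (comp_mem2 hS hS hV' hD) (dg_mem2 hS), ph_comp, ph_dg]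
  exact exists_inv h ⟨_, _, rfl⟩ h1 ⟨_, _, rfl⟩ h2

end alg

/-- The properties of the self-correspondence `Z` which are used. -/
structure Ctx (hS : S.dim = 2) (H : WeilTheoryData.{u, v, w} C K) [IsWeilProj H]
    (Z : C.A (S.prod S)) : Prop where
  h : Alg.Setup (P := PP C S) (swp C S) (QQ C hS) (JJ H hS)
  hE : EndIsField H S
  mem : Z ∈ C.gr (S.prod S) 2
  nd : ¬ IsHomDegenerate H (antisym C Z)

lemma anti_mem {W : C.A (S.prod S)} (hW : W ∈ C.gr (S.prod S) 2) :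
    antisym C W ∈ C.gr (S.prod S) 2 := Submodule.sub_mem _ hW (tp_mem C hW)

lemma jj_mem (hS : S.dim = 2) {Γ : C.A (S.prod S)} (hΓ : Γ ∈ C.gr (S.prod S) 2)
    (hd : IsHomDegenerate H Γ) : ph hS hΓ ∈ JJ H hS := ⟨Γ, hΓ, hd.homDeg, rfl⟩

lemma ph_anti (hS : S.dim = 2) {W : C.A (S.prod S)} (hW : W ∈ C.gr (S.prod S) 2) :
    ph hS (anti_mem hW) = ph hS hW - swp C S (ph hS hW) := by
  rw [swp_ph, ← ph_sub]
  rfl

section ctx

variable {hS : S.dim = 2} {Z : C.A (S.prod S)} (c : Ctx hS H Z)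
include c

lemma Ctx.unit : ∃ v ∈ QQ C hS, ph hS (anti_mem c.mem) * v = 1 ∧ v * ph hS (anti_mem c.mem) = 1 :=
  exists_inv' hS c.h (anti_mem c.mem) (swp_antisym hS c.mem _) c.hE c.nd

lemma Ctx.anti {Γ Y : C.A (S.prod S)} (hΓ : Γ ∈ C.gr (S.prod S) 2) (hd : IsHomDegenerate H Γ)
    (hY : Y ∈ C.gr (S.prod S) 2) : Same C (C.comp Y Γ) (C.comp Γ (tp C Y)) := by
  rw [same_iff hS (comp_mem2 hS hS hY hΓ) (comp_mem2 hS hS hΓ (tp_mem C hY)), ph_comp hS hY hΓ,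
    ph_comp hS hΓ (tp_mem C hY), ← swp_ph hS hY]
  have h2 := anti_lin c.h (c.h.s_mem ⟨Y, hY, rfl⟩) (jj_mem (H := H) hS hΓ hd)
  rw [c.h.s_s] at h2
  rw [h2]

lemma Ctx.kills {Γ : C.A (S.prod S)} (hΓ : Γ ∈ C.gr (S.prod S) 2) (hd : IsHomDegenerate H Γ)
    (hc : Comm C Γ Z) : KillsAlbKer C Γ := by
  obtain ⟨v, hv, hv1, hv2⟩ := c.unit
  rw [comm_iff hS hΓ c.mem] at hc
  rw [kills_iff hS hΓ]
  have hj := jj_mem (H := H) hS hΓ hd
  have h2 := mul_sub_s c.h (x := ph hS c.mem) ⟨_, _, rfl⟩ hj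
  have h3 : (ph hS hΓ * ph hS (anti_mem c.mem)).1 = 0 := by
    rw [ph_anti hS c.mem, h2]
    exact sub_eq_zero.2 hc
  have h4 : ph hS hΓ = ph hS hΓ * ph hS (anti_mem c.mem) * v := by
    rw [mul_assoc, hv1, mul_one]
  rw [h4]
  change (ph hS hΓ * ph hS (anti_mem c.mem)).1 * v.1 = 0
  rw [h3, zero_mul]

lemma power_mem (n : ℕ) : ∃ h : power C Z n ∈ C.gr (S.prod S) 2,
    Commute (ph hS h) (ph hS c.mem) := by
  induction n with
  | zero =>
    refine ⟨dg_mem2 hS, ?_⟩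
    have : ph hS (Γ := power C Z 0) (dg_mem2 hS) = 1 := ph_dg hS
    rw [this]
    exact Commute.one_left _
  | succ n ih =>
    obtain ⟨h1, h2⟩ := ih
    refine ⟨comp_mem2 hS hS h1 c.mem, ?_⟩
    have : ph hS (Γ := power C Z (n + 1)) (comp_mem2 hS hS h1 c.mem) =
      ph hS c.mem * ph hS h1 := ph_comp hS h1 c.mem
    rw [this]
    exact (Commute.refl _).mul_left h2

lemma poly_mem (P : Polynomial ℚ) : ∃ h : poly C P Z ∈ C.gr (S.prod S) 2,
    Commute (ph hS h) (ph hS c.mem) := by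
  refine Finset.sum_induction (M := C.A (S.prod S)) _
    (fun Γ => ∃ h : Γ ∈ C.gr (S.prod S) 2, Commute (ph hS h) (ph hS c.mem)) ?_ ?_ ?_
  · rintro Γ Δ ⟨h1, h2⟩ ⟨h3, h4⟩
    refine ⟨Submodule.add_mem _ h1 h3, ?_⟩
    rw [ph_add hS h1 h3]
    exact h2.add_left h4
  · refine ⟨Submodule.zero_mem _, ?_⟩
    rw [ph_zero]
    exact Commute.zero_left _
  · intro n _
    obtain ⟨h1, h2⟩ := power_mem c n
    refine ⟨Submodule.smul_mem _ _ h1, ?_⟩
    rw [ph_smul hS h1]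
    exact h2.smul_left _

lemma Ctx.poly_kills (P : Polynomial ℚ) (hd : IsHomDegenerate H (poly C P Z)) :
    KillsAlbKer C (poly C P Z) := by
  obtain ⟨h1, h2⟩ := poly_mem c P
  refine c.kills h1 hd ?_
  rw [comm_iff hS h1 c.mem]
  exact congrArg (fun x : PP C S => x.1) h2

lemma Ctx.iff : (∀ Γ : C.A (S.prod S), C.Deg 2 Γ → IsHomDegenerate H Γ → KillsAlbKer C Γ) ↔
    ∀ Y : C.A (S.prod S), C.Deg 2 Y → Comm C Y Z := by
  constructor
  · intro h2 Y hY α hα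
    have h3 := h2 _ (Submodule.sub_mem _ (comp_mem2 hS hS hY c.mem) (comp_mem2 hS hS c.mem hY))
      (c.hE.comm Y Z hY c.mem) α hα
    rwa [C.act_sub, sub_eq_zero] at h3
  · intro h2 Γ hΓ hd
    exact c.kills hΓ hd (h2 Γ hΓ)

/-- A linear correspondence commutes with `Z - ᵗZ`, and so does its transpose. -/
lemma Ctx.cent {Y : C.A (S.prod S)} (hY : IsLinear C Y) :
    ph hS (anti_mem c.mem) * ph hS (Γ := Y) hY.1 = ph hS (Γ := Y) hY.1 * ph hS (anti_mem c.mem) := by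
  have h2 := hY.2 Z c.mem
  have hY1 : Y ∈ C.gr (S.prod S) 2 := hY.1
  rw [comm_iff hS hY1 (anti_mem c.mem)] at h2
  refine sub_eq_zero.1 (zero_of_fst hS c.h (c.h.comm ⟨_, _, rfl⟩ ⟨_, _, rfl⟩) ?_)
  exact sub_eq_zero.2 h2.symm

lemma Ctx.linear_of {Y : C.A (S.prod S)} (hY : Y ∈ C.gr (S.prod S) 2)
    (hc : ph hS (anti_mem c.mem) * ph hS hY = ph hS hY * ph hS (anti_mem c.mem)) :
    IsLinear C Y := by
  obtain ⟨v, hv, hv1, hv2⟩ := c.unit
  refine ⟨hY, fun W hW => ?_⟩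
  rw [comm_iff hS hY (anti_mem hW)]
  refine congrArg (fun x : PP C S => x.1) ?_
  exact cent_anti c.h ⟨_, _, rfl⟩ (swp_antisym hS c.mem _) hv hv1 hv2 ⟨_, _, rfl⟩ hc ⟨_, _, rfl⟩
    (swp_antisym hS hW _)

lemma Ctx.exists_linear {Y : C.A (S.prod S)} (hY : Y ∈ C.gr (S.prod S) 2) :
    ∃ Y₀, IsLinear C Y₀ ∧ IsHomDegenerate H (Y - Y₀) ∧
      Same C ((2 : ℚ) • C.comp Y₀ (antisym C Z))
        (C.comp Y (antisym C Z) + C.comp (antisym C Z) Y) := by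
  obtain ⟨v, hv, hv1, hv2⟩ := c.unit
  have hu : ph hS (anti_mem c.mem) ∈ QQ C hS := ⟨_, _, rfl⟩
  have h1 := swp_antisym hS c.mem (anti_mem c.mem)
  have hy : ph hS hY ∈ QQ C hS := ⟨_, _, rfl⟩
  obtain ⟨n, hn, hnd, hn1⟩ := sub_lin_mem c.h hu h1 hv hv1 hv2 hy
  have h2 : Y - n ∈ C.gr (S.prod S) 2 := Submodule.sub_mem _ hY hn
  have h3 : ph hS h2 = (1 / 2 : ℚ) • (ph hS hY + v * ph hS hY * ph hS (anti_mem c.mem)) := by
    rw [ph_sub hS hY hn, hn1]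
    abel
  have h4 := lin_comm c.h hu h1 hv hv1 hv2 hy
  rw [← h3] at h4
  have h5 := two_lin c.h hu h1 hv hv1 hv2 hy
  rw [← h3] at h5
  refine ⟨Y - n, c.linear_of h2 h4, ?_, ?_⟩
  · rw [sub_sub_cancel]
    exact isHomDegenerate_of hnd
  · rw [same_iff hS (Submodule.smul_mem _ _ (comp_mem2 hS hS h2 (anti_mem c.mem)))
      (Submodule.add_mem _ (comp_mem2 hS hS hY (anti_mem c.mem))
        (comp_mem2 hS hS (anti_mem c.mem) hY)),
      ph_smul hS (comp_mem2 hS hS h2 (anti_mem c.mem)), ph_add hS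
        (comp_mem2 hS hS hY (anti_mem c.mem)) (comp_mem2 hS hS (anti_mem c.mem) hY),
      ph_comp hS h2 (anti_mem c.mem), ph_comp hS hY (anti_mem c.mem),
      ph_comp hS (anti_mem c.mem) hY, h5]

lemma Ctx.cent_kills {Y : C.A (S.prod S)} (hY : IsLinear C Y) (hd : IsHomDegenerate H Y) :
    KillsAlbKer C Y := by
  obtain ⟨v, hv, hv1, hv2⟩ := c.unit
  have hY1 : Y ∈ C.gr (S.prod S) 2 := hY.1
  rw [kills_iff hS hY1]
  have := zero_of_comm c.h ⟨_, _, rfl⟩ (swp_antisym hS c.mem _) hv hv1 hv2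
    (jj_mem (H := H) hS hY1 hd) (c.cent hY)
  rw [this]
  rfl

lemma Ctx.linear_comm {Y W : C.A (S.prod S)} (hY : IsLinear C Y) (hW : IsLinear C W) :
    Comm C Y W := by
  obtain ⟨v, hv, hv1, hv2⟩ := c.unit
  have hY1 : Y ∈ C.gr (S.prod S) 2 := hY.1
  have hW1 : W ∈ C.gr (S.prod S) 2 := hW.1
  rw [comm_iff hS hY1 hW1]
  exact congrArg (fun x : PP C S => x.1) (cent_comm c.h ⟨_, _, rfl⟩ (swp_antisym hS c.mem _) hv hv1
    hv2 ⟨_, _, rfl⟩ ⟨_, _, rfl⟩ (c.cent hY) (c.cent hW))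

lemma Ctx.linear_comp {Y W : C.A (S.prod S)} (hY : IsLinear C Y) (hW : IsLinear C W) :
    IsLinear C (C.comp Y W) := by
  have hY1 : Y ∈ C.gr (S.prod S) 2 := hY.1
  have hW1 : W ∈ C.gr (S.prod S) 2 := hW.1
  refine c.linear_of (comp_mem2 hS hS hY1 hW1) ?_
  rw [ph_comp hS hY1 hW1, ← mul_assoc, c.cent hW, mul_assoc, c.cent hY, ← mul_assoc]

lemma Ctx.linear_add {Y W : C.A (S.prod S)} (hY : IsLinear C Y) (hW : IsLinear C W) :
    IsLinear C (Y + W) := by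
  have hY1 : Y ∈ C.gr (S.prod S) 2 := hY.1
  have hW1 : W ∈ C.gr (S.prod S) 2 := hW.1
  refine c.linear_of (Submodule.add_mem _ hY1 hW1) ?_
  rw [ph_add hS hY1 hW1, mul_add, add_mul, c.cent hW, c.cent hY]

lemma Ctx.linear_tp {Y : C.A (S.prod S)} (hY : IsLinear C Y) : IsLinear C (tp C Y) := by
  obtain ⟨v, hv, hv1, hv2⟩ := c.unit
  have hY1 : Y ∈ C.gr (S.prod S) 2 := hY.1
  refine c.linear_of (tp_mem C hY1) ?_
  rw [← swp_ph hS hY1]
  exact cent_s c.h ⟨_, _, rfl⟩ (swp_antisym hS c.mem _) hv hv1 hv2 (c.cent hY)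

lemma Ctx.linear_sym {Y W : C.A (S.prod S)} (hY : IsLinear C Y) (hW : W ∈ C.gr (S.prod S) 2) :
    Comm C (Y + tp C Y) W := by
  obtain ⟨v, hv, hv1, hv2⟩ := c.unit
  have hY1 : Y ∈ C.gr (S.prod S) 2 := hY.1
  have h2 := c.linear_add hY (c.linear_tp hY)
  have h3 : Y + tp C Y ∈ C.gr (S.prod S) 2 := h2.1
  rw [comm_iff hS h3 hW]
  refine congrArg (fun x : PP C S => x.1) ?_
  refine cent_sym c.h ⟨_, _, rfl⟩ (swp_antisym hS c.mem _) hv hv1 hv2 ⟨_, _, rfl⟩ (c.cent h2) ?_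
    ⟨_, _, rfl⟩
  rw [swp_ph]
  refine ph_congr' hS ?_ _ _
  rw [tp_add, tp_tp, add_comm]

lemma Ctx.similitude {Y : C.A (S.prod S)} (hY : IsSimilitude C Y) : IsLinear C Y := by
  obtain ⟨h1, N, hN, h2⟩ := hY
  have hY1 : Y ∈ C.gr (S.prod S) 2 := h1
  refine c.linear_of hY1 ?_
  exact (c.h.sim_anti ⟨_, _, rfl⟩ (swp_antisym hS c.mem _)
    (sim_self hS hY1 hN fun β hβ => h2 β (inAlbKer_iff.2 hβ))).symm

lemma Ctx.linear_inv {Y : C.A (S.prod S)} (hY : IsLinear C Y) (hd : ¬ IsHomDegenerate H Y) :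
    ∃ V, IsLinear C V ∧ Same C (C.comp V Y) (dg C S) := by
  have hY1 : Y ∈ C.gr (S.prod S) 2 := hY.1
  obtain ⟨V, hV, hVd⟩ := (c.hE.inv Y hY1).resolve_left hd
  have hV1 : V ∈ C.gr (S.prod S) 2 := hV
  obtain ⟨V₀, h1, h2, -⟩ := c.exists_linear hV1
  have hV0 : V₀ ∈ C.gr (S.prod S) 2 := h1.1
  have h4 : ph hS hY1 * ph hS hV1 - 1 ∈ JJ H hS := by
    refine ⟨_, Submodule.sub_mem _ (comp_mem2 hS hS hV1 hY1) (dg_mem2 hS), hVd.homDeg, ?_⟩
    rw [ph_sub hS (comp_mem2 hS hS hV1 hY1) (dg_mem2 hS), ph_comp, ph_dg]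
  have h5 : ph hS hV1 - ph hS hV0 ∈ JJ H hS :=
    ⟨_, Submodule.sub_mem _ hV1 hV0, h2.homDeg, ph_sub hS hV1 hV0⟩
  obtain ⟨v, hv, hv1, hv2⟩ := c.unit
  refine ⟨V₀, h1, ?_⟩
  rw [same_iff hS (comp_mem2 hS hS hV0 hY1) (dg_mem2 hS), ph_comp hS hV0 hY1, ph_dg,
    cent_inv c.h ⟨_, _, rfl⟩ (swp_antisym hS c.mem _) hv hv1 hv2 ⟨_, _, rfl⟩ (c.cent hY)
      (c.cent h1) h4 h5]

lemma Ctx.field : LinearAlgebra C S where
  add _ _ hY hW := c.linear_add hY hW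
  comp _ _ hY hW := c.linear_comp hY hW
  transp _ hY := c.linear_tp hY
  comm _ _ hY hW := c.linear_comm hY hW
  central _ _ hY hW := c.linear_sym hY hW

lemma Ctx.dichotomy {Y : C.A (S.prod S)} (hY : IsLinear C Y) : ZeroOrInvertible H Y := by
  by_cases h : IsHomDegenerate H Y
  · exact Or.inl ⟨h, c.cent_kills hY h⟩
  · exact Or.inr (c.linear_inv hY h)

end ctx

end Pool.Agent.Helper867_NR
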