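import Pool.Agent.Y152.Alg.Sim

/-!
# Rings with involution and symmetric nil ideals: the linear part
-/

namespace Pool.Agent.Helper867_NR

open Pool.Agent.Y152.Alg

universe u

set_option linter.unusedSectionVars false
set_option linter.unusedVariables false

variable {P : Type u} [Ring P] [Algebra ℚ P] {s : P →ₗ[ℚ] P} {Q J : Submodule ℚ P}
  (h : Setup s Q J)
include h

/-- The elements of `J` are antilinear. -/
lemma anti_lin {x j : P} (hx : x ∈ Q) (hj : j ∈ J) : x * j = j * s x := by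
  have h1 := h.sym (h.left hx hj)
  rw [h.s_mul, h.sym hj] at h1
  exact h1.symm

lemma mul_sub_s {x j : P} (hx : x ∈ Q) (hj : j ∈ J) : j * (x - s x) = j * x - x * j := by
  rw [mul_sub, anti_lin h hx hj]

lemma sub_s_anti (x : P) : s (x - s x) = -(x - s x) := by
  rw [map_sub, h.s_s]
  abel

/-- An antisymmetric element which is invertible modulo `J` is invertible. -/
lemma exists_inv {u y : P} (hu : u ∈ Q) (h1 : s u = -u) (hy : y ∈ Q) (hy' : u * y - 1 ∈ J) :
    ∃ v ∈ Q, u * v = 1 ∧ v * u = 1 := by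
  set j := u * y - 1 with hj
  have hjj : j * j = 0 := h.mul_eq_zero hu h1 hy' hy' hy'
  have hv : y * (1 - j) ∈ Q := h.mul_mem hy (Q.sub_mem h.one_mem (h.le hy'))
  have huv : u * (y * (1 - j)) = 1 := by
    rw [← mul_assoc, show u * y = 1 + j by rw [hj]; abel]
    have : (1 + j) * (1 - j) = 1 - j * j := by noncomm_ring
    rw [this, hjj, sub_zero]
  refine ⟨y * (1 - j), hv, huv, ?_⟩
  set v := y * (1 - j) with hvdef
  have h2 : v * u - 1 ∈ J := by
    have h3 := h.comm hv hu
    rwa [huv] at h3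
  have h3 : (v * u - 1) * (v * u - 1) = 0 := h.mul_eq_zero hu h1 hy' h2 h2
  have h4 : (v * u) * (v * u) = v * u := by
    rw [mul_assoc, ← mul_assoc u, huv, one_mul]
  have h5 : (v * u - 1) * (v * u - 1) = 1 - v * u := by
    have : (v * u - 1) * (v * u - 1) = v * u * (v * u) - 2 * (v * u) + 1 := by noncomm_ring
    rw [this, h4]
    noncomm_ring
  rw [h5] at h3
  exact (sub_eq_zero.1 h3).symm

section unit

variable {u v : P} (hu : u ∈ Q) (h1 : s u = -u) (hv : v ∈ Q) (huv : u * v = 1) (hvu : v * u = 1)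
include hu h1 hv huv hvu

/-- The square of an antisymmetric element is central. -/
lemma sq_comm {x : P} (hx : x ∈ Q) : u * u * x = x * (u * u) := by
  have h2 := anti_lin h hu (h.comm hu hx)
  rw [h1, mul_neg] at h2
  have h3 : u * u * x - x * (u * u) = u * (u * x - x * u) + (u * x - x * u) * u := by noncomm_ring
  rw [← sub_eq_zero, h3, h2]
  exact neg_add_cancel _

/-- The elements of `J` which commute with `u` are zero. -/
lemma zero_of_comm {j : P} (hj : j ∈ J) (hc : u * j = j * u) : j = 0 := by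
  have h2 := anti_lin h hu hj
  rw [h1, mul_neg, hc] at h2
  have h3 : j * u = 0 := eq_zero_of_eq_neg h2
  rw [← mul_one j, ← huv, ← mul_assoc, h3, zero_mul]

/-- The linear part of `x`. -/
lemma lin_mem {x : P} (hx : x ∈ Q) : (1 / 2 : ℚ) • (x + v * x * u) ∈ Q :=
  Q.smul_mem _ (Q.add_mem hx (h.mul_mem (h.mul_mem hv hx) hu))

lemma sub_lin_mem {x : P} (hx : x ∈ Q) : x - (1 / 2 : ℚ) • (x + v * x * u) ∈ J := by
  have h2 : x - (1 / 2 : ℚ) • (x + v * x * u) = (1 / 2 : ℚ) • (v * (u * x - x * u)) := by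
    rw [mul_sub, ← mul_assoc, hvu, one_mul, ← mul_assoc]
    module
  rw [h2]
  exact J.smul_mem _ (h.left hv (h.comm hu hx))

lemma two_lin {x : P} (hx : x ∈ Q) :
    (2 : ℚ) • (u * ((1 / 2 : ℚ) • (x + v * x * u))) = u * x + x * u := by
  rw [mul_smul_comm, smul_smul, mul_add, ← mul_assoc, ← mul_assoc, huv, one_mul]
  norm_num

lemma two_lin' {x : P} (hx : x ∈ Q) :
    (2 : ℚ) • (((1 / 2 : ℚ) • (x + v * x * u)) * u) = u * x + x * u := by
  rw [smul_mul_assoc, smul_smul, add_mul]
  have h2 : v * x * u * u = u * x := by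
    rw [mul_assoc (v * x), mul_assoc v, ← sq_comm h hu h1 hv huv hvu hx, ← mul_assoc, ← mul_assoc,
      hvu, one_mul]
  rw [h2]
  norm_num
  abel

lemma lin_comm {x : P} (hx : x ∈ Q) :
    u * ((1 / 2 : ℚ) • (x + v * x * u)) = ((1 / 2 : ℚ) • (x + v * x * u)) * u := by
  have h2 := (two_lin h hu h1 hv huv hvu hx).trans (two_lin' h hu h1 hv huv hvu hx).symm
  exact smul_right_injective P (two_ne_zero (α := ℚ)) h2

/-- Elements of the centralizer commute. -/
lemma cent_comm {x y : P} (hx : x ∈ Q) (hy : y ∈ Q) (hux : u * x = x * u) (huy : u * y = y * u) :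
    x * y = y * x := by
  refine sub_eq_zero.1 (zero_of_comm h hu h1 hv huv hvu (h.comm hx hy) ?_)
  have e1 : u * (x * y) = x * y * u := by rw [← mul_assoc, hux, mul_assoc, huy, ← mul_assoc]
  have e2 : u * (y * x) = y * x * u := by rw [← mul_assoc, huy, mul_assoc, hux, ← mul_assoc]
  rw [mul_sub, sub_mul, e1, e2]

lemma cent_anti {x w : P} (hx : x ∈ Q) (hux : u * x = x * u) (hw : w ∈ Q) (hw1 : s w = -w) :
    x * w = w * x :=
  cent_comm h hu h1 hv huv hvu hx hw hux (h.anti_comm hw hu hw1 h1)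

lemma cent_s {x : P} (hx : u * x = x * u) : u * s x = s x * u := by
  have h2 := congrArg s hx
  rw [h.s_mul, h.s_mul, h1, mul_neg, neg_mul, neg_inj] at h2
  exact h2.symm

lemma cent_sym {x : P} (hx : x ∈ Q) (hux : u * x = x * u) (hs : s x = x) {y : P} (hy : y ∈ Q) :
    x * y = y * x := by
  refine sub_eq_zero.1 (zero_of_comm h hu h1 hv huv hvu (h.comm hx hy) ?_)
  have h4 : u * y - y * u ∈ J := h.comm hu hy
  have h5 : x * (u * y - y * u) = (u * y - y * u) * x := by
    rw [anti_lin h hx h4, hs]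
  have h6 : u * (x * y - y * x) - (x * y - y * x) * u =
      x * (u * y - y * u) - (u * y - y * u) * x := by
    have e1 : u * (x * y) = x * (u * y) := by rw [← mul_assoc, hux, mul_assoc]
    have e2 : y * x * u = y * u * x := by rw [mul_assoc, ← hux, ← mul_assoc]
    rw [mul_sub, sub_mul, e1, e2]
    noncomm_ring
  rw [← sub_eq_zero, h6, h5, sub_self]

lemma cent_inv {y w w0 : P} (hy : y ∈ Q) (huy : u * y = y * u) (huw : u * w0 = w0 * u)
    (h2 : y * w - 1 ∈ J) (h3 : w - w0 ∈ J) : y * w0 = 1 := by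
  have h4 : y * w0 - 1 ∈ J := by
    have h7 : y * w0 - 1 = (y * w - 1) - y * (w - w0) := by noncomm_ring
    rw [h7]
    exact J.sub_mem h2 (h.left hy h3)
  refine sub_eq_zero.1 (zero_of_comm h hu h1 hv huv hvu h4 ?_)
  rw [mul_sub, sub_mul, ← mul_assoc, huy, mul_assoc, huw, mul_one, one_mul, mul_assoc]

end unit

end Pool.Agent.Helper867_NR
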